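import Mathlib

set_option autoImplicit false

noncomputable section

namespace Pool.Agent.Lib.MP_3c4fb9_al

open Finset

def pp (D : ℕ → ℕ) (t : ℕ) : ℕ := ∑ k ∈ range t, (D k + 1)
def qq (D : ℕ → ℕ) (t : ℕ) : ℕ := ∑ k ∈ range t, D k

lemma pp_succ (D : ℕ → ℕ) (t : ℕ) : pp D (t + 1) = pp D t + (D t + 1) := sum_range_succ _ _
lemma qq_succ (D : ℕ → ℕ) (t : ℕ) : qq D (t + 1) = qq D t + D t := sum_range_succ _ _
lemma pp_mono (D : ℕ → ℕ) : Monotone (pp D) :=
  monotone_nat_of_le_succ (fun t => by rw [pp_succ]; omega)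
lemma qq_mono (D : ℕ → ℕ) : Monotone (qq D) :=
  monotone_nat_of_le_succ (fun t => by rw [qq_succ]; omega)
lemma pp_zero (D : ℕ → ℕ) : pp D 0 = 0 := rfl
lemma qq_zero (D : ℕ → ℕ) : qq D 0 = 0 := rfl
lemma pp_eq (D : ℕ → ℕ) (t : ℕ) : pp D t = qq D t + t := by
  induction t with
  | zero => rfl
  | succ t ih => rw [pp_succ, qq_succ, ih]; omega

def ov (D : ℕ → ℕ) (i j : ℕ) : Prop := pp D j < qq D (i + 1) ∧ qq D i < pp D (j + 1)

instance (D : ℕ → ℕ) (i j : ℕ) : Decidable (ov D i j) := by unfold ov; infer_instance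

def sh (D : ℕ → ℕ) (i j : ℕ) : ℕ := min (pp D j - qq D i) (D i - (D j + 1))

def oo (D : ℕ → ℕ) (n j : ℕ) : ℕ := min (D j + 1) (pp D (j + 1) - qq D n)

lemma sum_oo (D : ℕ → ℕ) (n t : ℕ) : ∑ j ∈ range t, oo D n j = pp D t - qq D n := by
  induction t with
  | zero => simp [pp_zero]
  | succ t ih =>
    rw [sum_range_succ, ih, oo, pp_succ]; omega

lemma exists_between (D : ℕ → ℕ) (n P : ℕ) (h : P < qq D n) :
    ∃ i < n, qq D i ≤ P ∧ P < qq D (i + 1) := by
  induction n with
  | zero => simp [qq_zero] at h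
  | succ n ih =>
    by_cases h' : P < qq D n
    · obtain ⟨i, hi, h1⟩ := ih h'
      exact ⟨i, by omega, h1⟩
    · exact ⟨n, by omega, by omega, h⟩

section

variable {ι : Type} [Fintype ι] {δ : ι → ℕ} {rk : ι → ℕ} {n : ℕ} {D : ℕ → ℕ}

/-- the shift matrix -/
def EE (δ : ι → ℕ) (rk : ι → ℕ) (D : ℕ → ℕ) :
    Matrix (Σ i, Fin (δ i)) (Σ j, Fin (δ j + 1)) ℂ :=
  fun a b => if ov D (rk a.1) (rk b.1) ∧ (a.2 : ℕ) = b.2 + sh D (rk a.1) (rk b.1) then 1 else 0

lemma single_term (x : (Σ j, Fin (δ j + 1)) → ℂ) (a : Σ i, Fin (δ i)) (b : Σ j, Fin (δ j + 1))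
    (hx : (EE δ rk D).mulVec x a = 0)
    (hb : ov D (rk a.1) (rk b.1) ∧ (a.2 : ℕ) = b.2 + sh D (rk a.1) (rk b.1))
    (ho : ∀ b' : Σ j, Fin (δ j + 1), b'.1 ≠ b.1 → ov D (rk a.1) (rk b'.1) →
      (a.2 : ℕ) = b'.2 + sh D (rk a.1) (rk b'.1) → x b' = 0) : x b = 0 := by
  classical
  rw [Matrix.mulVec, dotProduct, Finset.sum_eq_single b] at hx
  · simpa [EE, hb] using hx
  · intro b' _ hne
    unfold EE
    split_ifs with h
    · by_cases h1 : b'.1 = b.1
      · exfalso
        obtain ⟨j, r⟩ := b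
        obtain ⟨j', r'⟩ := b'
        simp only at h1
        subst h1
        apply hne
        have : r' = r := Fin.ext (by have := h.2; have := hb.2; simp only at *; omega)
        rw [this]
      · rw [ho b' h1 h.1 h.2, mul_zero]
    · rw [zero_mul]
  · intro h; exact absurd (mem_univ _) h

lemma claimF (hinj : Function.Injective rk) (hlt : ∀ i, rk i < n)
    (hsurj : ∀ t < n, ∃ i, rk i = t) (hD : ∀ i, D (rk i) = δ i)
    (hov : ∀ i < n, ∀ j < n, pp D j < qq D (i + 1) → D j + 1 ≤ D i)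
    (x : (Σ j, Fin (δ j + 1)) → ℂ) (hx : (EE δ rk D).mulVec x = 0) (k : ℕ) :
    ∀ b : Σ j, Fin (δ j + 1), rk b.1 = k → ∀ t ≤ n, pp D k < qq D t → qq D t < pp D (k + 1) →
      pp D (k + 1) ≤ qq D t + b.2 → x b = 0 := by
  induction k using Nat.strong_induction_on with
  | _ k ih =>
    rintro ⟨j, r⟩ hk t ht h1 h2 h3
    simp only at hk h3
    obtain ⟨s, rfl⟩ : ∃ s, t = s + 1 := by
      cases t with
      | zero => simp [qq_zero] at h1
      | succ s => exact ⟨s, rfl⟩
    obtain ⟨i, hi⟩ := hsurj s (by omega)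
    have hkn : k < n := hk ▸ hlt j
    have hle := hov s (by omega) k hkn h1
    have hr := r.2
    have hDj : D k = δ j := hk ▸ hD j
    have hDi : D s = δ i := hi ▸ hD i
    have e1 := pp_succ D k
    have e2 := qq_succ D s
    have hc : r + (D s - (D k + 1)) < δ i := by omega
    refine single_term (rk := rk) (D := D) x ⟨i, ⟨_, hc⟩⟩ ⟨j, r⟩ (congrFun hx _) ?_ ?_
    · simp only [hi, hk, ov, sh]
      omega
    · rintro ⟨j', r'⟩ hne ho hc'
      simp only [hi, ov, sh] at hne ho hc'
      have hr' := r'.2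
      have hDj' := hD j'
      have e3 := pp_succ D (rk j')
      have hjk : rk j' ≠ k := fun h => hne (hinj (h.trans hk.symm))
      rcases lt_or_gt_of_ne hjk with hlt' | hgt
      · have m1 : pp D (rk j' + 1) ≤ pp D k := pp_mono D (by omega)
        by_cases hq : qq D s ≤ pp D (rk j')
        · exfalso; omega
        · exact ih (rk j') hlt' ⟨j', r'⟩ rfl s (by omega) (by omega) ho.2 (by simp only; omega)
      · have m1 : pp D (k + 1) ≤ pp D (rk j') := pp_mono D (by omega)
        exfalso; omega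

lemma claimB (hinj : Function.Injective rk) (hlt : ∀ i, rk i < n)
    (hsurj : ∀ t < n, ∃ i, rk i = t) (hD : ∀ i, D (rk i) = δ i)
    (hov : ∀ i < n, ∀ j < n, pp D j < qq D (i + 1) → D j + 1 ≤ D i)
    (x : (Σ j, Fin (δ j + 1)) → ℂ) (hx : (EE δ rk D).mulVec x = 0)
    (b : Σ j, Fin (δ j + 1)) (h0 : 0 < oo D n (rk b.1)) (h1 : oo D n (rk b.1) ≤ b.2) : x b = 0 := by
  have hr := b.2.2
  have hDj := hD b.1
  have e1 := pp_succ D (rk b.1)
  unfold oo at h0 h1
  exact claimF hinj hlt hsurj hD hov x hx _ b rfl n le_rfl (by omega) (by omega) (by omega)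

lemma claimC (hinj : Function.Injective rk) (hlt : ∀ i, rk i < n)
    (hsurj : ∀ t < n, ∃ i, rk i = t) (hD : ∀ i, D (rk i) = δ i)
    (hov : ∀ i < n, ∀ j < n, pp D j < qq D (i + 1) → D j + 1 ≤ D i)
    (x : (Σ j, Fin (δ j + 1)) → ℂ) (hx : (EE δ rk D).mulVec x = 0)
    (h0 : ∀ b : Σ j, Fin (δ j + 1), (b.2 : ℕ) < oo D n (rk b.1) → x b = 0) : x = 0 := by
  have hF := claimF hinj hlt hsurj hD hov x hx
  have key : ∀ m k, n - k = m → ∀ b : Σ j, Fin (δ j + 1), rk b.1 = k → x b = 0 := by
    intro m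
    induction m using Nat.strong_induction_on with
    | _ m ih =>
      rintro k hm ⟨j, r⟩ hk
      simp only at hk
      have hkn : k < n := hk ▸ hlt j
      have hr := r.2
      have hDj : D k = δ j := hk ▸ hD j
      have e1 := pp_succ D k
      have h0' := h0 ⟨j, r⟩
      simp only [hk, oo] at h0'
      have later : ∀ b' : Σ j, Fin (δ j + 1), k < rk b'.1 → x b' = 0 := fun b' h =>
        ih (n - rk b'.1) (by have := hlt b'.1; omega) _ rfl b' rfl
      by_cases hP : pp D k < qq D n
      swap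
      · exact h0' (by omega)
      obtain ⟨s, hs, hs1, hs2⟩ := exists_between D n _ hP
      have e2 := qq_succ D s
      have hle := hov s hs k hkn hs2
      by_cases hin : pp D (k + 1) ≤ qq D (s + 1)
      · obtain ⟨i, hi⟩ := hsurj s hs
        have hDi : D s = δ i := hi ▸ hD i
        have hc : r + (pp D k - qq D s) < δ i := by omega
        refine single_term (rk := rk) (D := D) x ⟨i, ⟨_, hc⟩⟩ ⟨j, r⟩ (congrFun hx _) ?_ ?_
        · simp only [hi, hk, ov, sh]
          omega
        · rintro ⟨j', r'⟩ hne ho hc'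
          simp only [hi, ov, sh] at hne ho hc'
          have hr' := r'.2
          have hDj' := hD j'
          have e3 := pp_succ D (rk j')
          have hjk : rk j' ≠ k := fun h => hne (hinj (h.trans hk.symm))
          rcases lt_or_gt_of_ne hjk with hlt' | hgt
          · have m1 : pp D (rk j' + 1) ≤ pp D k := pp_mono D (by omega)
            by_cases hq : qq D s ≤ pp D (rk j')
            · exfalso; omega
            · exact hF (rk j') ⟨j', r'⟩ rfl s (by omega) (by omega) ho.2 (by simp only; omega)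
          · exact later _ hgt
      · by_cases hfw : pp D (k + 1) ≤ qq D (s + 1) + r
        · exact hF k ⟨j, r⟩ hk (s + 1) (by omega) hs2 (by omega) hfw
        · by_cases hsn : s + 1 = n
          · apply h0'
            rw [← hsn]; omega
          · obtain ⟨i, hi⟩ := hsurj (s + 1) (by omega)
            have hDi : D (s + 1) = δ i := hi ▸ hD i
            have e4 := qq_succ D (s + 1)
            have hle2 := hov (s + 1) (by omega) k hkn (by omega)
            have hc : (r : ℕ) < δ i := by omega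
            refine single_term (rk := rk) (D := D) x ⟨i, ⟨_, hc⟩⟩ ⟨j, r⟩ (congrFun hx _) ?_ ?_
            · simp only [hi, hk, ov, sh]
              omega
            · rintro ⟨j', r'⟩ hne ho hc'
              simp only [hi, ov, sh] at hne ho hc'
              have hjk : rk j' ≠ k := fun h => hne (hinj (h.trans hk.symm))
              rcases lt_or_gt_of_ne hjk with hlt' | hgt
              · have m1 : pp D (rk j' + 1) ≤ pp D k := pp_mono D (by omega)
                exfalso; omega
              · exact later _ hgt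
  funext b
  exact key _ _ rfl b rfl

end

lemma overlap {n : ℕ} {D : ℕ → ℕ} (hm : ∀ i j, i ≤ j → j < n → D i ≤ D j)
    (hc : ∀ d, d * ((range n).filter (fun k => D k = d)).card ≤
      ((range n).filter (fun k => D k < d)).card) :
    ∀ i < n, ∀ j < n, pp D j < qq D (i + 1) → D j + 1 ≤ D i := by
  intro i hi j hj h
  by_contra hcon
  have hij : D i ≤ D j := by omega
  set d := D i with hd
  have h1 : ∑ k ∈ (range n).filter (fun k => D k < d), (D k + 1) ≤ pp D j := by
    apply sum_le_sum_of_subset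
    intro k hk
    rw [mem_filter, mem_range] at hk
    rw [mem_range]
    by_contra hkj
    have := hm j k (by omega) hk.1
    omega
  have h2 : qq D (i + 1) ≤ ∑ k ∈ (range n).filter (fun k => D k < d), D k +
      ∑ k ∈ (range n).filter (fun k => D k = d), D k := by
    rw [← sum_union]
    · apply sum_le_sum_of_subset
      intro k hk
      rw [mem_range] at hk
      have := hm k i (by omega) hi
      simp only [mem_union, mem_filter, mem_range]
      omega
    · rw [disjoint_left]
      intro k h1 h2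
      rw [mem_filter] at h1 h2
      omega
  have h3 : ∑ k ∈ (range n).filter (fun k => D k = d), D k =
      d * ((range n).filter (fun k => D k = d)).card := by
    rw [sum_congr rfl (g := fun _ => d) (fun k hk => (mem_filter.1 hk).2), sum_const, smul_eq_mul,
      mul_comm]
  rw [sum_add_distrib, sum_const, smul_eq_mul, mul_one] at h1
  have := hc d
  omega

theorem Tlemma {ι : Type} [Fintype ι] (δ : ι → ℕ)
    (hc : ∀ d, d * (univ.filter (fun k => δ k = d)).card ≤ (univ.filter (fun k => δ k < d)).card) :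
    ∃ (act : ι → ι → Prop) (_ : DecidableRel act) (s : ι → ι → ℕ) (o : ι → ℕ)
      (E : Matrix (Σ i, Fin (δ i)) (Σ j, Fin (δ j + 1)) ℂ),
      (∀ a b, E a b = if act a.1 b.1 ∧ (a.2 : ℕ) = b.2 + s a.1 b.1 then 1 else 0) ∧
      (∀ i j, act i j → s i j + δ j + 1 ≤ δ i) ∧
      (∀ j, o j ≤ δ j + 1) ∧ ∑ j, o j = Fintype.card ι ∧
      (∀ x, E.mulVec x = 0 → ∀ b, 0 < o b.1 → o b.1 ≤ b.2 → x b = 0) ∧
      (∀ x, E.mulVec x = 0 → (∀ b, (b.2 : ℕ) < o b.1 → x b = 0) → x = 0) := by
  classical
  set n := Fintype.card ι with hn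
  let e0 : Fin n ≃ ι := (Fintype.equivFin ι).symm
  let e : Fin n ≃ ι := (Tuple.sort (δ ∘ e0)).trans e0
  have hmono : Monotone (δ ∘ e) := Tuple.monotone_sort (δ ∘ e0)
  let rk : ι → ℕ := fun i => (e.symm i : ℕ)
  let D : ℕ → ℕ := fun k => if h : k < n then δ (e ⟨k, h⟩) else 0
  have hinj : Function.Injective rk := fun a b h => e.symm.injective (Fin.ext h)
  have hlt : ∀ i, rk i < n := fun i => (e.symm i).2
  have hsurj : ∀ t < n, ∃ i, rk i = t := fun t ht => ⟨e ⟨t, ht⟩, by simp [rk]⟩
  have hD : ∀ i, D (rk i) = δ i := fun i => by simp [D, rk]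
  have hcard : ∀ P : ℕ → Prop, ∀ [DecidablePred P], ((range n).filter (fun k => P (D k))).card =
      (univ.filter (fun k => P (δ k))).card := by
    intro P _
    symm
    apply card_bij (fun i _ => rk i)
    · intro i hi
      rw [mem_filter] at hi ⊢
      exact ⟨mem_range.2 (hlt i), by rw [hD]; exact hi.2⟩
    · intro a _ b _ h; exact hinj h
    · intro t ht
      rw [mem_filter, mem_range] at ht
      obtain ⟨i, rfl⟩ := hsurj t ht.1
      exact ⟨i, mem_filter.2 ⟨mem_univ _, by rw [← hD]; exact ht.2⟩, rfl⟩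
  have hov := overlap (n := n) (D := D) (fun i j hij hj => by
      have hi : i < n := by omega
      simp only [D, dif_pos hi, dif_pos hj]
      exact hmono (show (⟨i, hi⟩ : Fin n) ≤ ⟨j, hj⟩ from hij))
    (fun d => by rw [hcard (fun x => x = d), hcard (fun x => x < d)]; exact hc d)
  refine ⟨fun i j => ov D (rk i) (rk j), inferInstance, fun i j => sh D (rk i) (rk j),
    fun j => oo D n (rk j), EE δ rk D, fun a b => rfl, fun i j h => ?_, fun j => ?_, ?_,
    claimB hinj hlt hsurj hD hov, claimC hinj hlt hsurj hD hov⟩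
  · have h1 := hov _ (hlt i) _ (hlt j) h.1
    rw [← hD i, ← hD j]
    show sh D (rk i) (rk j) + D (rk j) + 1 ≤ D (rk i)
    unfold sh
    omega
  · rw [← hD j]
    show oo D n (rk j) ≤ D (rk j) + 1
    unfold oo; omega
  · have : ∑ j, oo D n (rk j) = ∑ t ∈ range n, oo D n t := by
      rw [← Fin.sum_univ_eq_sum_range, ← Equiv.sum_comp e]
      simp [rk]
    rw [this, sum_oo, pp_eq]; omega

end Pool.Agent.Lib.MP_3c4fb9_al
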