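import Mathlib

set_option autoImplicit false

noncomputable section

namespace Pool.Agent.Lib.MP_3c4fb9_al

open Matrix

/-- the pencil block `L_e` evaluated at `z`: size `e × (e+1)`, `z` at `(i,i)`, `1` at `(i,i+1)` -/
def Lb (e : ℕ) (z : ℂ) : Matrix (Fin e) (Fin (e + 1)) ℂ :=
  fun i j => if (j : ℕ) = i then z else if (j : ℕ) = i + 1 then 1 else 0

/-- the `g × g` Jordan block with eigenvalue `μ` -/
def Jb (g : ℕ) (μ : ℂ) : Matrix (Fin g) (Fin g) ℂ :=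
  fun i j => if (j : ℕ) = i then μ else if (j : ℕ) = i + 1 then 1 else 0

/-- positions in a list of blocks: `n i` copies of a block of size `s i`, for each `i` -/
abbrev Pos {k : ℕ} (n s : Fin k → ℕ) : Type := Σ a : (Σ i, Fin (n i)), Fin (s a.1)

/-- singular part: `n i` copies of `L_{δ i}ᵀ`, then `m j` copies of `L_{ε j}` -/
def sing {k l : ℕ} (δ n : Fin k → ℕ) (ε m : Fin l → ℕ) (z : ℂ) :
    Matrix (Pos n (fun i => δ i + 1) ⊕ Pos m ε) (Pos n δ ⊕ Pos m (fun j => ε j + 1)) ℂ :=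
  fromBlocks (blockDiagonal' fun a => (Lb (δ a.1) z)ᵀ) 0 0 (blockDiagonal' fun a => Lb (ε a.1) z)

/-- regular part: the blocks `J_{γ s}(μ s) + z I`, then the blocks `I + z J_{β t}(0)` -/
def reg {p q : ℕ} (γ : Fin p → ℕ) (μ : Fin p → ℂ) (β : Fin q → ℕ) (z : ℂ) :
    Matrix ((Σ s, Fin (γ s)) ⊕ (Σ t, Fin (β t))) ((Σ s, Fin (γ s)) ⊕ (Σ t, Fin (β t))) ℂ :=
  fromBlocks (blockDiagonal' fun s => Jb (γ s) (μ s) + z • 1) 0 0
    (blockDiagonal' fun t => 1 + z • Jb (β t) 0)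

/-- row positions of the Kronecker form -/
abbrev Rows {k l p q : ℕ} (δ n : Fin k → ℕ) (ε m : Fin l → ℕ) (γ : Fin p → ℕ) (β : Fin q → ℕ) :
    Type :=
  (Pos n (fun i => δ i + 1) ⊕ Pos m ε) ⊕ ((Σ s, Fin (γ s)) ⊕ (Σ t, Fin (β t)))

/-- column positions of the Kronecker form -/
abbrev Cols {k l p q : ℕ} (δ n : Fin k → ℕ) (ε m : Fin l → ℕ) (γ : Fin p → ℕ) (β : Fin q → ℕ) :
    Type :=
  (Pos n δ ⊕ Pos m (fun j => ε j + 1)) ⊕ ((Σ s, Fin (γ s)) ⊕ (Σ t, Fin (β t)))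

/-- the Kronecker form evaluated at `z` -/
def kcf {k l p q : ℕ} (δ n : Fin k → ℕ) (ε m : Fin l → ℕ) (γ : Fin p → ℕ) (μ : Fin p → ℂ)
    (β : Fin q → ℕ) (z : ℂ) : Matrix (Rows δ n ε m γ β) (Cols δ n ε m γ β) ℂ :=
  fromBlocks (sing δ n ε m z) 0 0 (reg γ μ β z)

end Pool.Agent.Lib.MP_3c4fb9_al
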