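import Pool.Agent.Lib.MP_3c4fb9_al.Main

set_option autoImplicit false

noncomputable section

namespace Pool.Agent.Lib.MP_3c4fb9_al

open Matrix Finset

lemma card_filter_sigma {k : ℕ} (n : Fin k → ℕ) (P : Fin k → Prop) [DecidablePred P] :
    (univ.filter (fun a : Σ i, Fin (n i) => P a.1)).card = ∑ i ∈ univ.filter P, n i := by
  have : univ.filter (fun a : Σ i, Fin (n i) => P a.1) =
      (univ.filter P).sigma (fun _ => univ) := by
    ext a; simp
  rw [this, card_sigma]
  simp

lemma count_hyp {k : ℕ} (δ n : Fin k → ℕ) (hδ : StrictMono δ)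
    (h : ∀ i, δ i * n i ≤ ∑ i' ∈ Iio i, n i') (d : ℕ) :
    d * (univ.filter (fun a : Σ i, Fin (n i) => δ a.1 = d)).card ≤
      (univ.filter (fun a : Σ i, Fin (n i) => δ a.1 < d)).card := by
  rw [card_filter_sigma n (fun i => δ i = d), card_filter_sigma n (fun i => δ i < d)]
  by_cases hd : ∃ i, δ i = d
  · obtain ⟨i, rfl⟩ := hd
    have h1 : univ.filter (fun i' => δ i' = δ i) = {i} := by
      ext i'; simp [hδ.injective.eq_iff]
    have h2 : univ.filter (fun i' => δ i' < δ i) = Iio i := by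
      ext i'; simp [hδ.lt_iff_lt]
    rw [h1, h2, sum_singleton]
    exact h i
  · have h1 : univ.filter (fun i' => δ i' = d) = ∅ := by
      ext i'
      simp only [mem_filter, mem_univ, true_and, notMem_empty, iff_false]
      exact fun h => hd ⟨i', h⟩
    rw [h1]; simp

lemma reg_comm {p q : ℕ} (γ : Fin p → ℕ) (μ : Fin p → ℂ) (β : Fin q → ℕ) (z w : ℂ) :
    reg γ μ β z * reg γ μ β w = reg γ μ β w * reg γ μ β z := by
  simp only [reg, fromBlocks_multiply, Matrix.mul_zero, Matrix.zero_mul, add_zero, zero_add,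
    ← blockDiagonal'_mul]
  congr 2
  · funext s
    simp only [Matrix.add_mul, Matrix.mul_add, Matrix.smul_mul, Matrix.mul_smul, Matrix.one_mul,
      Matrix.mul_one, smul_smul, smul_add, mul_comm z w]
    abel
  · funext s
    simp only [Matrix.add_mul, Matrix.mul_add, Matrix.smul_mul, Matrix.mul_smul, Matrix.one_mul,
      Matrix.mul_one, smul_smul, smul_add, mul_comm z w]
    abel

lemma transfer {N : ℕ} {R C : Type} [Fintype R] [Fintype C] (A B S T : Matrix (Fin N) (Fin N) ℂ)
    (hS : IsUnit S) (hT : IsUnit T) (eR : Fin N ≃ R) (eC : Fin N ≃ C) (K : ℂ → Matrix R C ℂ)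
    (hK : ∀ z : ℂ, S * (A + z • B) * T = (K z).submatrix eR eC)
    (E0 : Matrix C R ℂ) (hinj : ∀ x, E0.mulVec x = 0 → x = 0)
    (hcomm : K 0 * (E0 * K 1) = K 1 * (E0 * K 0)) :
    ∃ E : Matrix (Fin N) (Fin N) ℂ, IsUnit E ∧ E * A * (E * B) = E * B * (E * A) := by
  set E1 : Matrix (Fin N) (Fin N) ℂ := E0.submatrix eC eR with hE1
  have hU : IsUnit E1 := by
    rw [← mulVec_injective_iff_isUnit, ← Matrix.coe_mulVecLin, ← LinearMap.ker_eq_bot,
      LinearMap.ker_eq_bot']
    intro x hx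
    rw [mulVecLin_apply, hE1, submatrix_mulVec_equiv] at hx
    have h1 : E0.mulVec (x ∘ eR.symm) = 0 := by
      funext c
      have := congrFun hx (eC.symm c)
      simpa using this
    have h2 := hinj _ h1
    funext i
    have := congrFun h2 (eR i)
    simpa using this
  have h0 := hK 0
  have h1 := hK 1
  rw [zero_smul, add_zero] at h0
  rw [one_smul] at h1
  have hc : S * A * T * (E1 * (S * (A + B) * T)) = S * (A + B) * T * (E1 * (S * A * T)) := by
    rw [h0, h1, hE1, submatrix_mul_equiv, submatrix_mul_equiv, submatrix_mul_equiv,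
      submatrix_mul_equiv, hcomm]
  refine ⟨T * E1 * S, (hT.mul hU).mul hS, ?_⟩
  have hc2 : S * (A * (T * E1 * S) * B) * T = S * (B * (T * E1 * S) * A) * T := by
    have e1 : S * A * T * (E1 * (S * (A + B) * T)) =
        S * (A * (T * E1 * S) * A) * T + S * (A * (T * E1 * S) * B) * T := by
      simp only [Matrix.mul_add, Matrix.add_mul, Matrix.mul_assoc]
    have e2 : S * (A + B) * T * (E1 * (S * A * T)) =
        S * (A * (T * E1 * S) * A) * T + S * (B * (T * E1 * S) * A) * T := by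
      simp only [Matrix.mul_add, Matrix.add_mul, Matrix.mul_assoc]
    rw [e1, e2] at hc
    exact add_left_cancel hc
  have hc3 : A * (T * E1 * S) * B = B * (T * E1 * S) * A :=
    hS.mul_left_cancel (hT.mul_right_cancel hc2)
  calc T * E1 * S * A * (T * E1 * S * B) = T * E1 * S * (A * (T * E1 * S) * B) := by
        simp only [Matrix.mul_assoc]
    _ = T * E1 * S * (B * (T * E1 * S) * A) := by rw [hc3]
    _ = _ := by simp only [Matrix.mul_assoc]

theorem main {N k l p q : ℕ} (A B S T : Matrix (Fin N) (Fin N) ℂ) (hS : IsUnit S) (hT : IsUnit T)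
    (δ n : Fin k → ℕ) (ε m : Fin l → ℕ) (γ : Fin p → ℕ) (μ : Fin p → ℂ)
    (β : Fin q → ℕ) (hδ : StrictMono δ) (hε : StrictMono ε)
    (eR : Fin N ≃ (Pos n (fun i => δ i + 1) ⊕ Pos m ε) ⊕ ((Σ s, Fin (γ s)) ⊕ (Σ t, Fin (β t))))
    (eC : Fin N ≃ (Pos n δ ⊕ Pos m (fun j => ε j + 1)) ⊕ ((Σ s, Fin (γ s)) ⊕ (Σ t, Fin (β t))))
    (hK : ∀ z : ℂ, S * (A + z • B) * T =
      (fromBlocks (sing δ n ε m z) 0 0 (reg γ μ β z)).submatrix eR eC)
    (h1 : ∀ i, δ i * n i ≤ ∑ i' ∈ Iio i, n i') (h2 : ∀ j, ε j * m j ≤ ∑ j' ∈ Iio j, m j') :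
    ∃ E : Matrix (Fin N) (Fin N) ℂ, IsUnit E ∧ E * A * (E * B) = E * B * (E * A) := by
  have hcard : Fintype.card (Σ i, Fin (n i)) = Fintype.card (Σ j, Fin (m j)) := by
    have := Fintype.card_congr (eR.symm.trans eC)
    simp only [Fintype.card_sum] at this
    rw [Fintype.card_sigma (ι := Σ i, Fin (n i)), Fintype.card_sigma (ι := Σ i, Fin (n i)),
      Fintype.card_sigma (ι := Σ i, Fin (m i)), Fintype.card_sigma (ι := Σ i, Fin (m i))] at this
    simp only [Fintype.card_fin, Finset.sum_add_distrib, Finset.sum_const, smul_eq_mul, mul_one,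
      Finset.card_univ] at this
    omega
  obtain ⟨E, hE, hc⟩ := singular_part (fun a : Σ i, Fin (n i) => δ a.1)
    (fun a : Σ i, Fin (m i) => ε a.1) hcard (count_hyp δ n hδ h1) (count_hyp ε m hε h2)
  have hs : ∀ z, sing δ n ε m z = fromBlocks (LL (fun a : Σ i, Fin (n i) => δ a.1) z)ᵀ 0 0
      (LL (fun a : Σ i, Fin (m i) => ε a.1) z) := by
    intro z
    rw [sing, LL, LL, blockDiagonal'_transpose]
  refine transfer A B S T hS hT eR eC _ hK (fromBlocks E 0 0 1) (fun x hx => ?_) ?_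
  · rw [fromBlocks_mulVec] at hx
    funext a
    rcases a with a | a
    · have h3 : E.mulVec (x ∘ Sum.inl) = 0 := by
        funext b
        have := congrFun hx (Sum.inl b)
        simpa using this
      exact congrFun (hE _ h3) a
    · have := congrFun hx (Sum.inr a)
      simpa using this
  · have hc' : sing δ n ε m 0 * (E * sing δ n ε m 1) = sing δ n ε m 1 * (E * sing δ n ε m 0) := by
      rw [hs, hs]; exact hc 0 1
    simp only [fromBlocks_multiply, Matrix.mul_zero, Matrix.zero_mul, add_zero, zero_add,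
      Matrix.one_mul, hc', reg_comm γ μ β 0 1]

end Pool.Agent.Lib.MP_3c4fb9_al
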