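import Pool.Agent.Lib.MP_3c4fb9_al.Core
import Pool.Agent.Lib.MP_3c4fb9_al.Defs

set_option autoImplicit false

noncomputable section

namespace Pool.Agent.Lib.MP_3c4fb9_al

open Matrix Finset

section

variable {ι : Type} [Fintype ι] [DecidableEq ι]

def LL (δ : ι → ℕ) (z : ℂ) : Matrix (Σ i, Fin (δ i)) (Σ i, Fin (δ i + 1)) ℂ :=
  blockDiagonal' fun i => Lb (δ i) z

lemma LL_mul {β : Type} (δ : ι → ℕ) (z : ℂ) (M : Matrix (Σ i, Fin (δ i + 1)) β ℂ) (i : ι)
    (r : Fin (δ i)) (b : β) :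
    (LL δ z * M) ⟨i, r⟩ b = z * M ⟨i, r.castSucc⟩ b + M ⟨i, r.succ⟩ b := by
  rw [Matrix.mul_apply, Fintype.sum_sigma, Finset.sum_eq_single i]
  · simp only [LL, blockDiagonal'_apply_eq, Lb]
    rw [Finset.sum_eq_add r.castSucc r.succ]
    · simp
    · exact (Fin.castSucc_lt_succ).ne
    · intro c _ hc
      have h1 : (c : ℕ) ≠ r := fun h => hc.1 (Fin.ext h)
      have h2 : (c : ℕ) ≠ r + 1 := fun h => hc.2 (Fin.ext h)
      simp [h1, h2]
    · intro h; exact absurd (mem_univ _) h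
    · intro h; exact absurd (mem_univ _) h
  · intro i' _ hi
    simp [LL, blockDiagonal'_apply_ne _ _ _ hi.symm]
  · intro h; exact absurd (mem_univ _) h

lemma mul_LLT {α : Type} (δ : ι → ℕ) (z : ℂ) (M : Matrix α (Σ i, Fin (δ i + 1)) ℂ) (a : α) (j : ι)
    (c : Fin (δ j)) :
    (M * (LL δ z)ᵀ) a ⟨j, c⟩ = z * M a ⟨j, c.castSucc⟩ + M a ⟨j, c.succ⟩ := by
  have := LL_mul δ z Mᵀ j c a
  rw [← transpose_apply (M * (LL δ z)ᵀ), transpose_mul, transpose_transpose, this]
  rfl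

lemma LLT_mul {β : Type} (δ : ι → ℕ) (z : ℂ) (M : Matrix (Σ i, Fin (δ i)) β ℂ) (i : ι)
    (r : Fin (δ i + 1)) (b : β) :
    ((LL δ z)ᵀ * M) ⟨i, r⟩ b = (if h : (r : ℕ) < δ i then z * M ⟨i, ⟨r, h⟩⟩ b else 0) +
      (if h : 0 < (r : ℕ) then M ⟨i, ⟨r - 1, by have := r.2; omega⟩⟩ b else 0) := by
  rw [Matrix.mul_apply, Fintype.sum_sigma, Finset.sum_eq_single i]
  · simp only [LL, transpose_apply, blockDiagonal'_apply_eq, Lb]
    have hsplit : ∀ c : Fin (δ i),
        (if (r : ℕ) = c then z else if (r : ℕ) = c + 1 then 1 else 0) * M ⟨i, c⟩ b =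
        (if (r : ℕ) = c then z * M ⟨i, c⟩ b else 0) +
          (if (r : ℕ) = c + 1 then M ⟨i, c⟩ b else 0) := by
      intro c
      by_cases h1 : (r : ℕ) = c
      · have h2 : ¬ (r : ℕ) = c + 1 := by omega
        rw [if_pos h1, if_pos h1, if_neg h2, add_zero]
      · rw [if_neg h1, if_neg h1, zero_add]
        split_ifs <;> simp
    simp only [hsplit, Finset.sum_add_distrib]
    congr 1
    · split_ifs with h
      · rw [Finset.sum_eq_single ⟨r, h⟩]
        · simp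
        · intro c _ hc
          rw [if_neg (fun h' => hc (Fin.ext h'.symm))]
        · intro h; exact absurd (mem_univ _) h
      · refine Finset.sum_eq_zero (fun c _ => ?_)
        have := c.2
        rw [if_neg (by omega)]
    · split_ifs with h
      · rw [Finset.sum_eq_single ⟨r - 1, by have := r.2; omega⟩]
        · rw [if_pos (by simp only; omega)]
        · intro c _ hc
          rw [if_neg (fun h' => hc (Fin.ext (by simp only; omega)))]
        · intro h; exact absurd (mem_univ _) h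
      · refine Finset.sum_eq_zero (fun c _ => ?_)
        rw [if_neg (by omega)]
  · intro i' _ hi
    simp [LL, blockDiagonal'_apply_ne _ _ _ hi]
  · intro h; exact absurd (mem_univ _) h

lemma TT_comm (δ : ι → ℕ) (act : ι → ι → Prop) [DecidableRel act] (s : ι → ι → ℕ)
    (E : Matrix (Σ i, Fin (δ i)) (Σ j, Fin (δ j + 1)) ℂ)
    (hE : ∀ a b, E a b = if act a.1 b.1 ∧ (a.2 : ℕ) = b.2 + s a.1 b.1 then 1 else 0)
    (hs : ∀ i j, act i j → s i j + δ j + 1 ≤ δ i) (z w : ℂ) :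
    (LL δ z)ᵀ * (E * (LL δ w)ᵀ) = (LL δ w)ᵀ * (E * (LL δ z)ᵀ) := by
  ext ⟨i, r⟩ ⟨j, c⟩
  simp only [LLT_mul, mul_LLT, hE, Fin.val_castSucc, Fin.val_succ]
  have hc := c.2
  have hr := r.2
  by_cases ha : act i j
  · have := hs i j ha
    simp only [ha, true_and]
    split_ifs <;> first | omega | ring
  · simp [ha]

omit [DecidableEq ι] in
lemma exists_offsets (o : ι → ℕ) : ∃ P : ι → ℕ,
    (∀ j j' r r', r < o j → r' < o j' → P j + r = P j' + r' → j = j' ∧ r = r') ∧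
    (∀ j r, r < o j → P j + r < ∑ i, o i) ∧
    (∀ t < ∑ i, o i, ∃ j r, r < o j ∧ P j + r = t) := by
  let e : Fin (Fintype.card ι) ≃ ι := (Fintype.equivFin ι).symm
  let F := finSigmaFinEquiv (n := fun k => o (e k))
  have hsum : ∑ k, o (e k) = ∑ i, o i := Equiv.sum_comp e o
  let P : ι → ℕ := fun j => ∑ i : Fin (e.symm j), o (e (Fin.castLE (e.symm j).2.le i))
  have hF : ∀ (j : ι) (r : ℕ) (h : r < o (e (e.symm j))),
      (F ⟨e.symm j, ⟨r, h⟩⟩ : ℕ) = P j + r := fun j r h => finSigmaFinEquiv_apply _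
  refine ⟨P, fun j j' r r' h h' he => ?_, fun j r h => ?_, fun t ht => ?_⟩
  · have h1 : F ⟨e.symm j, ⟨r, by simpa using h⟩⟩ = F ⟨e.symm j', ⟨r', by simpa using h'⟩⟩ :=
      Fin.ext (by rw [hF, hF, he])
    have h2 := F.injective h1
    have h3 : j = j' := e.symm.injective (congrArg Sigma.fst h2)
    exact ⟨h3, by subst h3; omega⟩
  · rw [← hF j r (by simpa using h), ← hsum]
    exact Fin.is_lt _
  · obtain ⟨⟨k, r⟩, hk⟩ := F.surjective ⟨t, by rw [hsum]; exact ht⟩
    obtain ⟨j, rfl⟩ := e.symm.surjective k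
    refine ⟨j, r, by simpa using r.2, ?_⟩
    rw [← hF j r r.2]
    exact congrArg Fin.val hk

omit [DecidableEq ι] in
lemma surj_of_inj (δ o : ι → ℕ) (E : Matrix (Σ i, Fin (δ i)) (Σ j, Fin (δ j + 1)) ℂ)
    (ho : ∀ j, o j ≤ δ j + 1) (hsum : ∑ j, o j = Fintype.card ι)
    (hc : ∀ x, E.mulVec x = 0 → (∀ b, (b.2 : ℕ) < o b.1 → x b = 0) → x = 0)
    (u : (Σ i, Fin (δ i)) → ℂ) (v : (Σ j, Fin (δ j + 1)) → ℂ) :
    ∃ x, E.mulVec x = u ∧ ∀ b, (b.2 : ℕ) < o b.1 → x b = v b := by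
  let f : (Σ j, Fin (o j)) → (Σ j, Fin (δ j + 1)) := fun a => ⟨a.1, Fin.castLE (ho a.1) a.2⟩
  let Φ : ((Σ j, Fin (δ j + 1)) → ℂ) →ₗ[ℂ] ((Σ i, Fin (δ i)) → ℂ) × ((Σ j, Fin (o j)) → ℂ) :=
    LinearMap.prod E.mulVecLin (LinearMap.funLeft ℂ ℂ f)
  have hinj : Function.Injective Φ := by
    rw [← LinearMap.ker_eq_bot, LinearMap.ker_eq_bot']
    intro x hx
    refine hc x (congrArg Prod.fst hx) (fun b hb => ?_)
    exact congrFun (congrArg Prod.snd hx) ⟨b.1, ⟨b.2, hb⟩⟩
  have hrk : Module.finrank ℂ ((Σ j, Fin (δ j + 1)) → ℂ) =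
      Module.finrank ℂ (((Σ i, Fin (δ i)) → ℂ) × ((Σ j, Fin (o j)) → ℂ)) := by
    simp [Module.finrank_prod, Finset.sum_add_distrib, hsum]
  obtain ⟨x, hx⟩ := (LinearMap.injective_iff_surjective_of_finrank_eq_finrank hrk).1 hinj
    (u, v ∘ f)
  refine ⟨x, congrArg Prod.fst hx, fun b hb => ?_⟩
  exact congrFun (congrArg Prod.snd hx) ⟨b.1, ⟨b.2, hb⟩⟩

end

theorem singular_part {ι κ : Type} [Fintype ι] [DecidableEq ι] [Fintype κ] [DecidableEq κ]
    (δ : ι → ℕ) (ε : κ → ℕ) (hcard : Fintype.card ι = Fintype.card κ)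
    (h1 : ∀ d, d * (univ.filter (fun k => δ k = d)).card ≤ (univ.filter (fun k => δ k < d)).card)
    (h2 : ∀ d, d * (univ.filter (fun k => ε k = d)).card ≤ (univ.filter (fun k => ε k < d)).card) :
    ∃ E : Matrix ((Σ i, Fin (δ i)) ⊕ (Σ i, Fin (ε i + 1)))
        ((Σ i, Fin (δ i + 1)) ⊕ (Σ i, Fin (ε i))) ℂ,
      (∀ x, E.mulVec x = 0 → x = 0) ∧ ∀ z w : ℂ,
        fromBlocks (LL δ z)ᵀ 0 0 (LL ε z) * (E * fromBlocks (LL δ w)ᵀ 0 0 (LL ε w)) =
        fromBlocks (LL δ w)ᵀ 0 0 (LL ε w) * (E * fromBlocks (LL δ z)ᵀ 0 0 (LL ε z)) := by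
  obtain ⟨a1, _, s1, o1, E1, hE1, hs1, ho1, hn1, hb1, hc1⟩ := Tlemma δ h1
  obtain ⟨a2, _, s2, o2, E2, hE2, hs2, ho2, hn2, hb2, hc2⟩ := Tlemma ε h2
  obtain ⟨P1, hP1i, hP1b, -⟩ := exists_offsets o1
  obtain ⟨P2, -, hP2b, hP2s⟩ := exists_offsets o2
  set n := Fintype.card κ with hn
  rw [hn1, hcard] at hP1b
  rw [hn2] at hP2b hP2s
  let H : Matrix (Σ i, Fin (ε i + 1)) (Σ j, Fin (δ j + 1)) ℂ := fun a b =>
    if 0 < o2 a.1 ∧ 0 < o1 b.1 ∧ P2 a.1 + a.2 + (P1 b.1 + b.2) + 1 = n then 1 else 0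
  refine ⟨fromBlocks E1 0 H E2ᵀ, fun v hv => ?_, fun z w => ?_⟩
  · set x := v ∘ Sum.inl with hx
    set y := v ∘ Sum.inr with hy
    rw [fromBlocks_mulVec] at hv
    have e1 : E1.mulVec x = 0 := by
      funext a
      have := congrFun hv (Sum.inl a)
      simpa using this
    have e2 : H.mulVec x + E2ᵀ.mulVec y = 0 := by
      funext a
      exact congrFun hv (Sum.inr a)
    have hx0 : x = 0 := by
      refine hc1 x e1 (fun b hb => ?_)
      have hlt := hP1b _ _ hb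
      obtain ⟨i0, c0, hc0, ht⟩ := hP2s (n - 1 - (P1 b.1 + b.2)) (by omega)
      have hc0' : c0 < ε i0 + 1 := lt_of_lt_of_le hc0 (ho2 i0)
      obtain ⟨y', hy1, hy2⟩ := surj_of_inj ε o2 E2 ho2 hn2 hc2 0 (Pi.single ⟨i0, ⟨c0, hc0'⟩⟩ 1)
      have e3 : y' ⬝ᵥ H.mulVec x = 0 := by
        have := congrArg (fun t => y' ⬝ᵥ t) e2
        simp only [dotProduct_add, dotProduct_zero] at this
        rwa [dotProduct_mulVec y' E2ᵀ, vecMul_transpose, hy1, zero_dotProduct, add_zero] at this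
      rw [dotProduct, Finset.sum_eq_single ⟨i0, ⟨c0, hc0'⟩⟩] at e3
      · rw [hy2 _ hc0, Pi.single_eq_same, one_mul, Matrix.mulVec, dotProduct,
          Finset.sum_eq_single b] at e3
        · have : H ⟨i0, ⟨c0, hc0'⟩⟩ b = 1 := by
            simp only [H]
            rw [if_pos ⟨by omega, by omega, by omega⟩]
          rwa [this, one_mul] at e3
        · intro b' _ hne
          simp only [H]
          split_ifs with h
          · by_cases hb' : (b'.2 : ℕ) < o1 b'.1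
            · exfalso
              obtain ⟨h3, h4⟩ := hP1i b'.1 b.1 b'.2 b.2 hb' hb (by omega)
              apply hne
              obtain ⟨j, r⟩ := b
              obtain ⟨j', r'⟩ := b'
              simp only at h3 h4
              subst h3
              rw [Fin.ext h4]
            · rw [hb1 x e1 b' h.2.1 (by omega), mul_zero]
          · rw [zero_mul]
        · intro h; exact absurd (mem_univ _) h
      · intro a _ hne
        by_cases h0 : 0 < o2 a.1
        · by_cases ha : (a.2 : ℕ) < o2 a.1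
          · rw [hy2 a ha, Pi.single_eq_of_ne hne, zero_mul]
          · rw [hb2 y' hy1 a h0 (by omega), zero_mul]
        · have : H.mulVec x a = 0 := by
            rw [Matrix.mulVec, dotProduct]
            refine Finset.sum_eq_zero (fun b' _ => ?_)
            simp only [H]
            rw [if_neg (fun h => h0 h.1), zero_mul]
          rw [this, mul_zero]
      · intro h; exact absurd (mem_univ _) h
    have hy0 : y = 0 := by
      rw [hx0, mulVec_zero, zero_add] at e2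
      funext b
      obtain ⟨y', hy1, -⟩ := surj_of_inj ε o2 E2 ho2 hn2 hc2 (Pi.single b 1) 0
      have := congrArg (fun t => y' ⬝ᵥ t) e2
      simp only [dotProduct_zero] at this
      rw [dotProduct_mulVec y' E2ᵀ, vecMul_transpose, hy1, single_one_dotProduct] at this
      exact this
    funext a
    rcases a with a | a
    · exact congrFun hx0 a
    · exact congrFun hy0 a
  · simp only [fromBlocks_multiply, Matrix.mul_zero, Matrix.zero_mul, add_zero, zero_add]
    congr 1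
    · exact TT_comm δ a1 s1 E1 hE1 hs1 z w
    · ext ⟨i, r⟩ ⟨j, c⟩
      simp only [LL_mul, mul_LLT, H, Fin.val_castSucc, Fin.val_succ]
      split_ifs <;> first | omega | ring
    · have := congrArg Matrix.transpose (TT_comm ε a2 s2 E2 hE2 hs2 w z)
      simpa only [transpose_mul, transpose_transpose, Matrix.mul_assoc] using this

end Pool.Agent.Lib.MP_3c4fb9_al
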